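import Pool.Agent.Q195.BL5

set_option autoImplicit false

open Pool.Agent.Q195.BL

namespace Pool.Agent.Results.MP_1502ad_an.ExtensionNotSemiprojective

universe u

/-- There is a (split) exact sequence `0 → J → A → B → 0` of Banach lattices, with `J = ℝ`,
`A = ℝ ⊕_∞ ℓ₁`, `B = ℓ₁`, such that `J` and `B` are semiprojective and `A` is not. -/
theorem result : ∃ (J A B : Type)
    (_ : NormedAddCommGroup J) (_ : NormedSpace ℝ J) (_ : Lattice J) (_ : IsBanachLattice J)
    (_ : NormedAddCommGroup A) (_ : NormedSpace ℝ A) (_ : Lattice A) (_ : IsBanachLattice A)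
    (_ : NormedAddCommGroup B) (_ : NormedSpace ℝ B) (_ : Lattice B) (_ : IsBanachLattice B)
    (i : J →L[ℝ] A) (q : A →L[ℝ] B),
    IsLatHom i ∧ (∀ x, ‖i x‖ = ‖x‖) ∧ IsQuot q ∧ Set.range i = {x | q x = 0} ∧
      Semiprojective.{u, 0} J ∧ Semiprojective.{u, 0} B ∧ ¬ Semiprojective.{0, 0} A := by
  refine ⟨ℝ, ℝ × l1, l1, inferInstance, inferInstance, inferInstance, inferInstance,
    inferInstance, inferInstance, inferInstance, inferInstance, inferInstance, inferInstance,
    inferInstance, inferInstance, ContinuousLinearMap.inl ℝ ℝ l1, ContinuousLinearMap.snd ℝ ℝ l1,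
    fun x y => ?_, fun x => ?_, ⟨fun x y => rfl, fun x => ?_, fun y ε hε => ⟨(0, y), rfl, ?_⟩⟩, ?_,
    projective_real.semiprojective, projective_l1.semiprojective, not_semiprojective⟩
  · exact Prod.ext rfl (sup_idem _).symm
  · show ‖((x, 0) : ℝ × l1)‖ = ‖x‖
    rw [Prod.norm_def, norm_zero]
    exact max_eq_left (norm_nonneg _)
  · exact norm_snd_le x
  · rw [Prod.norm_def, norm_zero, max_eq_right (norm_nonneg _)]
    linarith
  · ext ⟨s, v⟩
    constructor
    · rintro ⟨r, hr⟩
      exact (congrArg Prod.snd hr).symm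
    · intro h
      exact ⟨s, Prod.ext rfl h.symm⟩

end Pool.Agent.Results.MP_1502ad_an.ExtensionNotSemiprojective
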